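import Pool.Agent.Lib.MP_dc7d7b_co.TF.DefB

set_option autoImplicit false

/-!
# The last step of the lemma of Lovasz, degree `D` (the proof of ../TF/LovC.lean)
-/

namespace Pool.Agent.MP_dc7d7b.TD

open Finset Classical TF

theorem lov_end {D : ℕ} (hD : 3 ≤ D) {V : Type} (G : SimpleGraph V) (S : Finset V) (hreg : ∀ v ∈ S, dg G S v = D)
    (hcut : ∀ c ∈ S, Con G (S.erase c)) (hbad : Nog G S) {x y : V} {L : Finset V} (hB : Bt G S x y L)
    (hx : ∀ a ∈ L, ∀ b ∈ insert x L, a ≠ b → G.Adj a b) (hy : ∀ a ∈ L, ∀ b ∈ insert y L, a ≠ b → G.Adj a b) :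
    False := by
  obtain ⟨hxS, hyS, hxy, hnxy, -, hLne, hLcl, -⟩ := hB
  have hLS : ∀ a ∈ L, a ∈ S ∧ a ≠ x ∧ a ≠ y := by
    intro a ha
    have h1 := hLcl.1 ha
    rw [Finset.mem_erase, Finset.mem_erase] at h1
    exact ⟨h1.2.2, h1.2.1, h1.1⟩
  have hxL : x ∉ L := fun h => (hLS x h).2.1 rfl
  have hyL : y ∉ L := fun h => (hLS y h).2.2 rfl
  have hLin : ∀ a ∈ L, ∀ b ∈ S, b ≠ x → b ≠ y → G.Adj a b → b ∈ L := by
    intro a ha b hb hbx hby hab
    exact hLcl.2 a ha b (Finset.mem_erase.2 ⟨hby, Finset.mem_erase.2 ⟨hbx, hb⟩⟩) hab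
  have hax : ∀ a ∈ L, G.Adj a x := fun a ha =>
    hx a ha x (Finset.mem_insert_self _ _) (hLS a ha).2.1
  have hay : ∀ a ∈ L, G.Adj a y := fun a ha =>
    hy a ha y (Finset.mem_insert_self _ _) (hLS a ha).2.2
  obtain ⟨l, hl⟩ := hLne
  have hlS := hLS l hl
  -- the number of the vertices of `L`
  have hN : S.filter (fun u => G.Adj l u) = insert x (insert y (L.erase l)) := by
    ext u
    simp only [Finset.mem_filter, Finset.mem_insert, Finset.mem_erase]
    constructor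
    · rintro ⟨h1, h2⟩
      by_cases h3 : u = x
      · exact Or.inl h3
      · by_cases h4 : u = y
        · exact Or.inr (Or.inl h4)
        · exact Or.inr (Or.inr ⟨h2.ne', hLin l hl u h1 h3 h4 h2⟩)
    · rintro (rfl | rfl | ⟨h1, h2⟩)
      · exact ⟨hxS, hax l hl⟩
      · exact ⟨hyS, hay l hl⟩
      · exact ⟨(hLS u h2).1, hx l hl u (Finset.mem_insert_of_mem h2) (Ne.symm h1)⟩
  have hc5 : L.card = D - 1 := by
    have h1 := hreg l hlS.1
    unfold dg at h1
    rw [hN, Finset.card_insert_of_notMem, Finset.card_insert_of_notMem, Finset.card_erase_of_mem hl] at h1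
    · have h2 : 0 < L.card := Finset.card_pos.2 ⟨l, hl⟩
      omega
    · exact fun h => hyL (Finset.mem_of_mem_erase h)
    · rw [Finset.mem_insert, not_or]
      exact ⟨hxy, fun h => hxL (Finset.mem_of_mem_erase h)⟩
  -- the last neighbour of `x`
  have hLN : L ⊆ S.filter (fun u => G.Adj x u) := fun a ha =>
    Finset.mem_filter.2 ⟨(hLS a ha).1, (hax a ha).symm⟩
  have hcN : (S.filter (fun u => G.Adj x u)).card = D := hreg x hxS
  have hc1 : ((S.filter (fun u => G.Adj x u)) \ L).card = 1 := by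
    rw [Finset.card_sdiff_of_subset hLN, hcN, hc5]
    omega
  obtain ⟨k, hk⟩ := Finset.card_eq_one.1 hc1
  have hk1 : k ∈ (S.filter (fun u => G.Adj x u)) \ L := by
    rw [hk]; exact Finset.mem_singleton_self k
  rw [Finset.mem_sdiff, Finset.mem_filter] at hk1
  obtain ⟨⟨hkS, hxk⟩, hkL⟩ := hk1
  have hkx : k ≠ x := hxk.ne'
  have hky : k ≠ y := fun h => hnxy (h ▸ hxk)
  have hlk : l ≠ k := fun h => hkL (h ▸ hl)
  have hnlk : ¬ G.Adj l k := fun h => hkL (hLin l hl k hkS hkx hky h)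
  have hncon := hbad x hxS l hlS.1 k hkS hlk hnlk (hax l hl).symm hxk
  -- a closed part without `x`
  have hxT : x ∈ (S.erase l).erase k :=
    Finset.mem_erase.2 ⟨hkx.symm, Finset.mem_erase.2 ⟨hlS.2.1.symm, hxS⟩⟩
  have hex : ∃ M, Cl G ((S.erase l).erase k) M ∧ M.Nonempty ∧ x ∉ M := by
    unfold TF.Con at hncon
    push Not at hncon
    obtain ⟨M, hM1, hM2, hM3⟩ := hncon
    by_cases hxM : x ∈ M
    · refine ⟨((S.erase l).erase k) \ M, hM1.compl, ?_, ?_⟩
      · rw [Finset.sdiff_nonempty]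
        exact fun h => hM3 (Finset.Subset.antisymm hM1.1 h)
      · exact fun h => (Finset.mem_sdiff.1 h).2 hxM
    · exact ⟨M, hM1, hM2, hxM⟩
  obtain ⟨M, hM1, hM2, hxM⟩ := hex
  have hMT : ∀ a ∈ M, a ∈ S ∧ a ≠ l ∧ a ≠ k := by
    intro a ha
    have h1 := hM1.1 ha
    rw [Finset.mem_erase, Finset.mem_erase] at h1
    exact ⟨h1.2.2, h1.2.1, h1.1⟩
  have hLM : ∀ a ∈ L, a ∉ M := fun a ha haM => hxM (hM1.2 a haM x hxT (hax a ha))
  have hyM : y ∉ M := by
    intro hyM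
    have h1 : (L.erase l).Nonempty := by
      rw [← Finset.card_pos, Finset.card_erase_of_mem hl, hc5]
      omega
    obtain ⟨a, ha⟩ := h1
    rw [Finset.mem_erase] at ha
    refine hLM a ha.2 (hM1.2 y hyM a ?_ (hay a ha.2).symm)
    exact Finset.mem_erase.2 ⟨fun h => hkL (h ▸ ha.2), Finset.mem_erase.2 ⟨ha.1, (hLS a ha.2).1⟩⟩
  have hMk : Cl G (S.erase k) M := by
    refine ⟨fun a ha => Finset.mem_erase.2 ⟨(hMT a ha).2.2, (hMT a ha).1⟩, ?_⟩
    intro a ha b hb hab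
    rw [Finset.mem_erase] at hb
    have hbl : b ≠ l := by
      rintro rfl
      exact hLM a (hLin b hl a (hMT a ha).1 (fun h => hxM (h ▸ ha)) (fun h => hyM (h ▸ ha)) hab.symm) ha
    exact hM1.2 a ha b (Finset.mem_erase.2 ⟨hb.1, Finset.mem_erase.2 ⟨hbl, hb.2⟩⟩) hab
  have hfin := hcut k hkS M hMk hM2
  exact hxM (hfin ▸ Finset.mem_erase.2 ⟨hkx.symm, hxS⟩)

end Pool.Agent.MP_dc7d7b.TD
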