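import Pool.Agent.Lib.MP_dc7d7b_co.TF.LovA
import Pool.Agent.Lib.MP_dc7d7b_co.TF.LovB
import Pool.Agent.Lib.MP_dc7d7b_co.TD.LC

set_option autoImplicit false

/-!
# The lemma of Lovasz, degree `D` (the proof of ../TF/Lov.lean)
-/

namespace Pool.Agent.MP_dc7d7b.TD

open Finset Classical TF

private theorem lov_bt_symm {V : Type} {G : SimpleGraph V} {S : Finset V} {x y : V} {L : Finset V} (h : Bt G S x y L) :
    Bt G S y x L := by
  obtain ⟨h1, h2, h3, h4, ⟨v, hv, h5, h6⟩, h7, h8, h9⟩ := h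
  refine ⟨h2, h1, h3.symm, fun hh => h4 hh.symm, ⟨v, hv, h6, h5⟩, h7, ?_, ?_⟩
  · rw [Finset.erase_right_comm]
    exact h8
  · rw [Finset.erase_right_comm]
    exact h9

theorem lovasz {D : ℕ} (hD : 3 ≤ D) {V : Type} (G : SimpleGraph V) (S : Finset V) (hreg : ∀ v ∈ S, dg G S v = D) (hconn : Con G S)
    (hcut : ∀ c ∈ S, Con G (S.erase c)) (hpair : ∃ x ∈ S, ∃ y ∈ S, x ≠ y ∧ ¬ G.Adj x y) :
    ∃ v ∈ S, ∃ x ∈ S, ∃ y ∈ S, x ≠ y ∧ ¬ G.Adj x y ∧ G.Adj v x ∧ G.Adj v y ∧ Con G ((S.erase x).erase y) := by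
  by_contra hcon
  have hbad : Nog G S := fun v hv x hx y hy hxy hna h1 h2 hc =>
    hcon ⟨v, hv, x, hx, y, hy, hxy, hna, h1, h2, hc⟩
  have hP : ∃ n : ℕ, ∃ (x y : V) (L : Finset V), Bt G S x y L ∧ L.card = n := by
    obtain ⟨v, hv, x, hx, y, hy, hxy, hna, h1, h2⟩ := dist_two G S hconn hpair
    have hnc := hbad v hv x hx y hy hxy hna h1 h2
    unfold TF.Con at hnc
    push Not at hnc
    obtain ⟨L, hL1, hL2, hL3⟩ := hnc
    exact ⟨L.card, x, y, L, ⟨hx, hy, hxy, hna, ⟨v, hv, h1, h2⟩, hL2, hL1, hL3⟩, rfl⟩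
  obtain ⟨x, y, L, hB, hc⟩ := Nat.find_spec hP
  have hmin : ∀ x' y' L', Bt G S x' y' L' → L.card ≤ L'.card := by
    intro x' y' L' h
    rw [hc]
    exact Nat.find_min' hP ⟨x', y', L', h, rfl⟩
  exact lov_end hD G S hreg hcut hbad hB (lov_clique G S hcut hbad (lov_bt_symm hB) hmin)
    (lov_clique G S hcut hbad hB hmin)

end Pool.Agent.MP_dc7d7b.TD
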