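import Pool.Agent.Lib.MP_dc7d7b_co.TD.AL
import Pool.Agent.Lib.MP_dc7d7b_co.TG.Fin56

set_option autoImplicit false

/-!
# All maximum degrees at least five
-/

namespace Pool.Agent.MP_dc7d7b.TD

open Finset

theorem degree_large {d : ℕ} (hd : 5 ≤ d) (V : Type) [Fintype V] (G : SimpleGraph V) [DecidableRel G.Adj]
    (hdeg : ∀ v : V, G.degree v ≤ d + 2) (hK : G.CliqueFree (d + 3)) (H : SimpleGraph (V × Fin (2 * d)))
    (hH : Cover G H) :
    ∃ f : Fin (2 * d) → V → Fin (2 * d), (∀ v : V, Function.Injective (fun i : Fin (2 * d) => f i v)) ∧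
      ∀ (i : Fin (2 * d)) (u v : V), ¬ H.Adj (u, f i u) (v, f i v) := by
  classical
  obtain ⟨f, hf⟩ := pack_all hd hH (TG.dg_le G hdeg) (TG.no_clique G hK) univ
  exact ⟨fun i v => f v i, fun v => (f v).injective, fun i u v => hf i u (mem_univ _) v (mem_univ _)⟩

theorem all_degrees (V : Type) [Fintype V] (G : SimpleGraph V) [DecidableRel G.Adj] (D : ℕ) (hD : 5 ≤ D)
    (hdeg : ∀ v : V, G.degree v ≤ D) (hK : G.CliqueFree (D + 1)) (k : ℕ) (hk : k = 2 * D - 4)
    (H : SimpleGraph (V × Fin k)) (hH : Cover G H) :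
    ∃ f : Fin k → V → Fin k, (∀ v : V, Function.Injective (fun i : Fin k => f i v)) ∧
      ∀ (i : Fin k) (u v : V), ¬ H.Adj (u, f i u) (v, f i v) := by
  rcases Nat.lt_or_ge D 7 with h | h
  · rcases (show D = 5 ∨ D = 6 by omega) with rfl | rfl
    · obtain rfl : k = 6 := by omega
      exact TG.degree_five V G hdeg hK H hH
    · obtain rfl : k = 8 := by omega
      exact TG.degree_six V G hdeg hK H hH
  · obtain ⟨d, rfl⟩ : ∃ d, D = d + 2 := ⟨D - 2, by omega⟩
    obtain rfl : k = 2 * d := by omega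
    exact degree_large (by omega) V G hdeg hK H hH

end Pool.Agent.MP_dc7d7b.TD
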