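import Pool.Agent.Lib.MP_dc7d7b_co.TD.PG

set_option autoImplicit false

/-!
FT (140 lines; models: `fit`, `fam_self` in ../TG/FT.lean and the end of ../TF/PStep.lean). Recolour t and its neighbour u.
D1 i c := forb H ((T.erase t).erase u) f u i (q c): `forb_deg` and `Deg.mono` (Main.lean): the neighbours of u in (T.erase t).erase u are at most
d + 1 (t is one more neighbour of u in T), and q is injective. σ = (f u).trans q.symm avoids D1 (hf). `pairG` gives σ, τ. g t = τ,
g u = σ.trans q, g z = f z otherwise. Edge (t, τ i) - (u, q (σ i)): hq gives q (τ i) = q (σ i), τ i = σ i. Edge (t, τ i) - (z, f z i): hD.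
-/

namespace Pool.Agent.MP_dc7d7b.TD

open Finset TF

open Classical in
theorem fit {d : ℕ} (hd : 5 ≤ d) {V : Type} {G : SimpleGraph V} {H : SimpleGraph (V × Fin (2 * d))} (hH : Cover G H)
    {T : Finset V} {t u : V} (ht : t ∈ T) (hu : u ∈ T) (htu : G.Adj t u) (hdu : dg G T u ≤ d + 2)
    {f : V → Equiv.Perm (Fin (2 * d))} (hf : Pk H (T.erase t) f) {q : Equiv.Perm (Fin (2 * d))}
    (hq : ∀ a b, H.Adj (t, a) (u, b) → q a = b) {D2 : Fin (2 * d) → Fin (2 * d) → Prop} (h2 : Deg d D2)
    (hD : ∀ i c, ∀ z ∈ T, z ≠ t → z ≠ u → H.Adj (t, c) (z, f z i) → D2 i c) :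
    ∃ g : V → Equiv.Perm (Fin (2 * d)), Pk H T g ∧ ∀ z, z ≠ t → z ≠ u → g z = f z := by
  have hne : u ≠ t := fun h => by
    subst h
    exact G.loopless.irrefl _ htu
  have hW : (((T.erase t).erase u).filter (fun w => G.Adj u w)).card ≤ d + 1 := by
    have h1 : insert t (((T.erase t).erase u).filter (fun w => G.Adj u w)) ⊆ T.filter (fun w => G.Adj u w) := by
      intro x hx
      rw [Finset.mem_insert] at hx
      rcases hx with rfl | hx
      · exact Finset.mem_filter.mpr ⟨ht, htu.symm⟩
      · rw [Finset.mem_filter, Finset.mem_erase, Finset.mem_erase] at hx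
        exact Finset.mem_filter.mpr ⟨hx.1.2.2, hx.2⟩
    have h2 : (T.filter (fun w => G.Adj u w)).card ≤ d + 2 := by
      unfold dg at hdu
      convert hdu
    have h3 := (Finset.card_le_card h1).trans h2
    rw [Finset.card_insert_of_notMem] at h3
    · omega
    · rw [Finset.mem_filter, Finset.mem_erase, Finset.mem_erase]
      rintro ⟨⟨_, h4, _⟩, _⟩
      exact h4 rfl
  have hdeg := (forb_deg hH ((T.erase t).erase u) f u).mono (show _ ≤ d + 1 by convert hW)
  have hD1 : Deg (d + 1) (fun i c => forb H ((T.erase t).erase u) f u i (q c)) := by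
    constructor
    · intro i
      refine le_trans (Finset.card_le_card_of_injOn q ?_ q.injective.injOn) (hdeg.1 i)
      intro c hc
      simpa using hc
    · intro c
      exact hdeg.2 (q c)
  obtain ⟨P, P', hP, hP', hPP⟩ := pairG hd hD1 ⟨(f u).trans q.symm, fun i => by
    rintro ⟨x, hx, hadj⟩
    rw [Finset.mem_erase, Finset.mem_erase] at hx
    rw [Equiv.trans_apply, Equiv.apply_symm_apply] at hadj
    exact hf i x (Finset.mem_erase.2 hx.2) u (Finset.mem_erase.2 ⟨hne, hu⟩) hadj⟩ h2
  have hout : ∀ i z, z ∈ T → z ≠ t → z ≠ u → ¬ H.Adj (z, f z i) (u, q (P i)) := fun i z hz h1 h2 hadj =>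
    hP i ⟨z, Finset.mem_erase.2 ⟨h2, Finset.mem_erase.2 ⟨h1, hz⟩⟩, hadj⟩
  let g : V → Equiv.Perm (Fin (2 * d)) := fun x => if x = t then P' else if x = u then P.trans q else f x
  have gt : g t = P' := by simp [g]
  have gu : ∀ i, g u i = q (P i) := by
    intro i
    simp [g, hne]
  have gW : ∀ x, x ≠ t → x ≠ u → g x = f x := by
    intro x h1 h2
    simp [g, h1, h2]
  have kt : ∀ i, ∀ y ∈ T, ¬ H.Adj (t, g t i) (y, g y i) := by
    intro i y hy hadj
    by_cases hyt : y = t
    · subst hyt
      exact hH.fib _ _ _ hadj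
    · by_cases hyu : y = u
      · subst hyu
        rw [gt, gu] at hadj
        exact hPP i (q.injective (hq _ _ hadj)).symm
      · rw [gt, gW y hyt hyu] at hadj
        exact hP' i (hD i _ y hy hyt hyu hadj)
  have ku : ∀ i, ∀ y ∈ T, y ≠ t → ¬ H.Adj (u, g u i) (y, g y i) := by
    intro i y hy hyt hadj
    by_cases hyu : y = u
    · subst hyu
      exact hH.fib _ _ _ hadj
    · rw [gu, gW y hyt hyu] at hadj
      exact hout i y hy hyt hyu hadj.symm
  refine ⟨g, ?_, gW⟩
  intro i x hx y hy hadj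
  by_cases hxt : x = t
  · subst hxt
    exact kt i y hy hadj
  · by_cases hyt : y = t
    · subst hyt
      exact kt i x hx hadj.symm
    · by_cases hxu : x = u
      · subst hxu
        exact ku i y hy hyt hadj
      · by_cases hyu : y = u
        · subst hyu
          exact ku i x hx hxt hadj.symm
        · rw [gW x hxt hxu, gW y hyt hyu] at hadj
          exact hf i x (Finset.mem_erase.mpr ⟨hxt, hx⟩) y (Finset.mem_erase.mpr ⟨hyt, hy⟩) hadj

end Pool.Agent.MP_dc7d7b.TD
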