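import Pool.Agent.Lib.MP_dc7d7b_co.TD.PR
import Pool.Agent.Lib.MP_dc7d7b_co.TD.FT

set_option autoImplicit false

/-!
BR (120 lines; model ../TF/Bro.lean and ../TG/BR.lean). q z for every z: `exists_extend`, H.Adj (v, a) (z, b) → q z a = b.
`prescribed` with T = S.erase v, px = q x, py = q y gives f. v has d + 2 ≥ 7 neighbours in S, take a third one, u (≠ x, y). `fit` with T = S, t = v, u, q u and
D2 i c := c = i ∨ forb H W f v i c, W = (((S.erase v).erase u).erase x).erase y: v has at most d - 1 neighbours in W, so Deg (d - 1) for the second part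
(`forb_deg`, `Deg.mono`), and Deg d for D2 (see hD in ../TF/Bro.lean). hD of `fit`: z ∈ S, z ≠ v, u, H.Adj (v, c) (z, f z i): z = x: q x c = f x i = q x i, c = i; z = y: the
same; otherwise z ∈ W.
-/

namespace Pool.Agent.MP_dc7d7b.TD

open Finset TF

open Classical in
theorem brooks_step {d : ℕ} (hd : 5 ≤ d) {V : Type} {G : SimpleGraph V} {H : SimpleGraph (V × Fin (2 * d))}
    (hH : Cover G H) (hdeg : ∀ (T : Finset V) (v : V), dg G T v ≤ d + 2) {S : Finset V} {v x y : V} (hv : v ∈ S)
    (hx : x ∈ S) (hy : y ∈ S) (hxy : x ≠ y) (hnxy : ¬ G.Adj x y) (hvx : G.Adj v x) (hvy : G.Adj v y)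
    (h6 : dg G S v = d + 2) (hcon : Con G ((S.erase x).erase y)) : ∃ g : V → Equiv.Perm (Fin (2 * d)), Pk H S g := by
  have hxv : x ≠ v := fun h => by
    subst h
    exact G.loopless.irrefl _ hvx
  have hyv : y ≠ v := fun h => by
    subst h
    exact G.loopless.irrefl _ hvy
  have hπex : ∀ u : V, ∃ π : Equiv.Perm (Fin (2 * d)), ∀ a b, H.Adj (v, a) (u, b) → π a = b := fun u =>
    exists_extend (fun a b => H.Adj (v, a) (u, b)) (fun a b b' h h' => hH.mat _ _ _ _ _ h h')
      (fun a a' b h h' => hH.mat _ _ _ _ _ h.symm h'.symm)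
  choose pi hpi using hπex
  obtain ⟨f, fx, fy, hf⟩ := prescribed hd hH hdeg hv hxv hyv hxy hnxy hcon (pi x) (pi y) (S.erase v)
    (Finset.Subset.refl _)
  set N := S.filter (fun w => G.Adj v w) with hN
  have hN6 : N.card = d + 2 := h6
  have hxN : x ∈ N := Finset.mem_filter.mpr ⟨hx, hvx⟩
  have hyN : y ∈ N := Finset.mem_filter.mpr ⟨hy, hvy⟩
  obtain ⟨u, huN⟩ : ((N.erase x).erase y).Nonempty := by
    rw [← Finset.card_pos, Finset.card_erase_of_mem (Finset.mem_erase.mpr ⟨hxy.symm, hyN⟩),
      Finset.card_erase_of_mem hxN, hN6]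
    omega
  rw [Finset.mem_erase, Finset.mem_erase, hN, Finset.mem_filter] at huN
  obtain ⟨huy, hux, huS, huv⟩ := huN
  have hne : u ≠ v := fun h => by
    subst h
    exact G.loopless.irrefl _ huv
  set W' := (((S.erase v).erase u).erase x).erase y with hW'
  have hWmem' : ∀ z, z ∈ W' ↔ (z ∈ S ∧ z ≠ v ∧ z ≠ u ∧ z ≠ x ∧ z ≠ y) := by
    intro z
    rw [hW', Finset.mem_erase, Finset.mem_erase, Finset.mem_erase, Finset.mem_erase]
    tauto
  have hWv : (W'.filter (fun w => G.Adj v w)).card ≤ d - 1 := by
    have h1 : insert u (insert x (insert y (W'.filter (fun w => G.Adj v w)))) ⊆ N := by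
      intro z hz
      rw [Finset.mem_insert, Finset.mem_insert, Finset.mem_insert] at hz
      rcases hz with rfl | rfl | rfl | hz
      · exact Finset.mem_filter.mpr ⟨huS, huv⟩
      · exact hxN
      · exact hyN
      · rw [Finset.mem_filter] at hz
        exact Finset.mem_filter.mpr ⟨((hWmem' z).mp hz.1).1, hz.2⟩
    have h2 := Finset.card_le_card h1
    rw [hN6, Finset.card_insert_of_notMem, Finset.card_insert_of_notMem, Finset.card_insert_of_notMem] at h2
    · omega
    · rw [Finset.mem_filter, hWmem']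
      tauto
    · rw [Finset.mem_insert, Finset.mem_filter, hWmem']
      tauto
    · rw [Finset.mem_insert, Finset.mem_insert, Finset.mem_filter, hWmem']
      tauto
  obtain ⟨D, hDdef⟩ : ∃ D : Fin (2 * d) → Fin (2 * d) → Prop, ∀ i c, D i c ↔ (c = i ∨ forb H W' f v i c) :=
    ⟨fun i c => c = i ∨ forb H W' f v i c, fun _ _ => Iff.rfl⟩
  have hD : Deg d D := by
    have h3 : Deg (d - 1) (forb H W' f v) := (forb_deg hH W' f v).mono hWv
    constructor
    · intro i
      have h4 : univ.filter (fun c => D i c) ⊆ insert i (univ.filter (fun c => forb H W' f v i c)) := by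
        intro c hc
        rw [Finset.mem_filter, hDdef] at hc
        rw [Finset.mem_insert, Finset.mem_filter]
        rcases hc.2 with h | h
        · exact Or.inl h
        · exact Or.inr ⟨Finset.mem_univ _, h⟩
      have h5 := (Finset.card_le_card h4).trans (Finset.card_insert_le _ _)
      have h7 := h3.1 i
      omega
    · intro c
      have h4 : univ.filter (fun i => D i c) ⊆ insert c (univ.filter (fun i => forb H W' f v i c)) := by
        intro i hi
        rw [Finset.mem_filter, hDdef] at hi
        rw [Finset.mem_insert, Finset.mem_filter]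
        rcases hi.2 with h | h
        · exact Or.inl h.symm
        · exact Or.inr ⟨Finset.mem_univ _, h⟩
      have h5 := (Finset.card_le_card h4).trans (Finset.card_insert_le _ _)
      have h7 := h3.2 c
      omega
  obtain ⟨g, hg, -⟩ := fit hd hH hv huS huv (hdeg S u) hf (hpi u) hD (by
    intro i c z hz hzv hzu hadj
    rw [hDdef]
    by_cases hzx : z = x
    · left
      subst hzx
      rw [fx] at hadj
      exact (pi z).injective (hpi z _ _ hadj)
    by_cases hzy : z = y
    · left
      subst hzy
      rw [fy] at hadj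
      exact (pi z).injective (hpi z _ _ hadj)
    right
    exact ⟨z, (hWmem' z).mpr ⟨hz, hzv, hzu, hzx, hzy⟩, hadj.symm⟩)
  exact ⟨g, hg⟩

end Pool.Agent.MP_dc7d7b.TD
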