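import Pool.Agent.Lib.MP_dc7d7b_co.TD.Defs

set_option autoImplicit false

/-!
CT: the double count.
-/

namespace Pool.Agent.MP_dc7d7b.TD

open Finset

theorem out_card {d : ℕ} (hd : 5 ≤ d) {F : Fin (2 * d) → Finset (Fin (2 * d))} (hF : Dg (d - 1) F)
    {Q : Finset (Fin (2 * d))} (hQ : Q.card + 1 = d) (ht : d ≤ (T0 F Q).card + 2) (ht' : (T0 F Q).card + 1 ≤ d)
    {A : Finset (Fin (2 * d) × Fin (2 * d))} (hA : Mat A) (hO : ∀ m ∈ A, Out F Q m) :
    A.card + (T0 F Q).card ≤ d + 1 := by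
  by_contra hcon
  have h1 : d + 2 - (T0 F Q).card ≤ A.card := by omega
  obtain ⟨A', hA'A, hA'c⟩ := Finset.exists_subset_card_eq h1
  have hRc : (A'.image Prod.fst).card = A'.card := by
    refine Finset.card_image_of_injOn ?_
    intro x hx y hy hxy
    by_contra hne
    exact (hA x (hA'A hx) y (hA'A hy) hne).1 hxy
  obtain ⟨R, hR⟩ : ∃ R, R = A'.image Prod.fst := ⟨_, rfl⟩
  rw [← hR] at hRc
  have hR1 : ∀ r ∈ R, (F r \ Q).card ≤ 1 := by
    intro r hr
    rw [hR, Finset.mem_image] at hr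
    obtain ⟨m, hm, rfl⟩ := hr
    obtain ⟨h2, h3, h4⟩ := hO m (hA'A hm)
    refine (Finset.card_le_card (t := {m.2}) ?_).trans (by simp)
    intro c hc
    rw [Finset.mem_sdiff] at hc
    rcases Finset.mem_insert.1 (h4 hc.1) with h5 | h5
    · rw [h5]
      exact Finset.mem_singleton_self _
    · exact absurd h5 hc.2
  have hdis : Disjoint R (T0 F Q) := by
    rw [Finset.disjoint_left]
    intro r hr hT
    rw [hR, Finset.mem_image] at hr
    obtain ⟨m, hm, rfl⟩ := hr
    obtain ⟨h2, h3, h4⟩ := hO m (hA'A hm)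
    rw [mem_T0] at hT
    rw [hT] at h3
    exact h2 h3
  have hQc : (Qᶜ : Finset (Fin (2 * d))).card = d + 1 := by
    rw [Finset.card_compl, Fintype.card_fin]
    omega
  have hle : ∀ r, (F r \ Q).card ≤ d + 1 := by
    intro r
    rw [← hQc]
    refine Finset.card_le_card ?_
    intro c hc
    rw [Finset.mem_compl]
    exact (Finset.mem_sdiff.1 hc).2
  have hsum : ∑ r, (F r \ Q).card ≤
      ∑ r, ((if r ∈ R then 1 else 0) + (if r ∈ (R ∪ T0 F Q)ᶜ then d + 1 else 0)) := by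
    refine Finset.sum_le_sum fun r _ => ?_
    by_cases h2 : r ∈ R
    · rw [if_pos h2]
      exact (hR1 r h2).trans (Nat.le_add_right _ _)
    · by_cases h3 : r ∈ T0 F Q
      · have h4 : F r = Q := mem_T0.1 h3
        rw [h4, Finset.sdiff_self, Finset.card_empty]
        exact Nat.zero_le _
      · have h4 : r ∈ (R ∪ T0 F Q)ᶜ := by
          rw [Finset.mem_compl, Finset.mem_union, not_or]
          exact ⟨h2, h3⟩
        rw [if_pos h4]
        exact (hle r).trans (Nat.le_add_left _ _)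
  rw [Finset.sum_add_distrib, dbl] at hsum
  have e1 : ∑ r, (if r ∈ R then 1 else 0) = R.card := by simp
  have e2 : ∑ r, (if r ∈ (R ∪ T0 F Q)ᶜ then d + 1 else 0) = ((R ∪ T0 F Q)ᶜ).card * (d + 1) := by
    rw [Finset.sum_ite_mem, Finset.univ_inter, Finset.sum_const, smul_eq_mul]
  rw [e1, e2, Finset.card_compl, Fintype.card_fin, Finset.card_union_of_disjoint hdis] at hsum
  have hlow : (d + 1) * (d - 1) ≤ ∑ c ∈ Qᶜ, (tr F c).card := by
    calc (d + 1) * (d - 1) = ∑ _c ∈ Qᶜ, (d - 1) := by rw [Finset.sum_const, hQc, smul_eq_mul]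
      _ ≤ _ := Finset.sum_le_sum fun c _ => hF.col c
  have h5 : 2 * d - (R.card + (T0 F Q).card) = d - 2 := by omega
  rw [h5] at hsum
  have h6 : R.card ≤ 4 := by omega
  obtain ⟨e, rfl⟩ : ∃ e, d = e + 2 := ⟨d - 2, by omega⟩
  have h7 : e + 2 - 1 = e + 1 := by omega
  have h8 : e + 2 - 2 = e := by omega
  rw [h7] at hlow
  rw [h8] at hsum
  have h9 := hlow.trans hsum
  nlinarith

end Pool.Agent.MP_dc7d7b.TD
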