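import Pool.Agent.Lib.MP_dc7d7b_co.TF.DefB

set_option autoImplicit false

/-!
# `2 d` colours: definitions

`F r` is the set of columns allowed in row `r` (`2 d` rows and columns).
-/

namespace Pool.Agent.MP_dc7d7b.TD

open Finset

variable {d : ℕ}

/-- The transposed family. -/
def tr (F : Fin (2 * d) → Finset (Fin (2 * d))) : Fin (2 * d) → Finset (Fin (2 * d)) :=
  fun c => univ.filter (fun r => c ∈ F r)

/-- All rows and columns have at least `k` allowed cells. -/
structure Dg (k : ℕ) (F : Fin (2 * d) → Finset (Fin (2 * d))) : Prop where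
  row : ∀ r, k ≤ (F r).card
  col : ∀ c, k ≤ (tr F c).card

/-- A set of cells with different rows and different columns. -/
def Mat (M : Finset (Fin (2 * d) × Fin (2 * d))) : Prop := ∀ x ∈ M, ∀ y ∈ M, x ≠ y → x.1 ≠ y.1 ∧ x.2 ≠ y.2

/-- Rows equal to `Q`. -/
def T0 (F : Fin (2 * d) → Finset (Fin (2 * d))) (Q : Finset (Fin (2 * d))) : Finset (Fin (2 * d)) :=
  univ.filter (fun r => F r = Q)

/-- `m` is allowed, outside `Q`, and the only allowed cell of its row outside `Q`. -/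
def Out (F : Fin (2 * d) → Finset (Fin (2 * d))) (Q : Finset (Fin (2 * d))) (m : Fin (2 * d) × Fin (2 * d)) : Prop :=
  m.2 ∉ Q ∧ m.2 ∈ F m.1 ∧ F m.1 ⊆ insert m.2 Q

/-- The pair `m`, `m'` is of row type with the set `Q`. -/
structure RT (F : Fin (2 * d) → Finset (Fin (2 * d))) (Q : Finset (Fin (2 * d))) (m m' : Fin (2 * d) × Fin (2 * d)) :
    Prop where
  cQ : Q.card + 1 = d
  lo : d ≤ (T0 F Q).card + 2
  hi : (T0 F Q).card + 1 ≤ d
  one : Out F Q m ∨ Out F Q m'
  two : (T0 F Q).card + 2 = d → Out F Q m ∧ Out F Q m'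

/-- `f` is a packing on `T`. -/
def Pk {V : Type} {k : ℕ} (H : SimpleGraph (V × Fin k)) (T : Finset V) (f : V → Equiv.Perm (Fin k)) : Prop :=
  ∀ i, ∀ u ∈ T, ∀ v ∈ T, ¬ H.Adj (u, f u i) (v, f v i)

theorem mem_tr {F : Fin (2 * d) → Finset (Fin (2 * d))} {r c : Fin (2 * d)} : r ∈ tr F c ↔ c ∈ F r := by simp [tr]

theorem tr_tr (F : Fin (2 * d) → Finset (Fin (2 * d))) : tr (tr F) = F := by
  funext r; ext c; simp [tr]

theorem Dg.tr {k : ℕ} {F : Fin (2 * d) → Finset (Fin (2 * d))} (h : Dg k F) : Dg k (tr F) :=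
  ⟨h.col, by rw [tr_tr]; exact h.row⟩

theorem mem_T0 {F : Fin (2 * d) → Finset (Fin (2 * d))} {Q : Finset (Fin (2 * d))} {r : Fin (2 * d)} :
    r ∈ T0 F Q ↔ F r = Q := by simp [T0]

/-- The cells outside `Q`, counted by rows and by columns. -/
theorem dbl (F : Fin (2 * d) → Finset (Fin (2 * d))) (Q : Finset (Fin (2 * d))) :
    ∑ r, (F r \ Q).card = ∑ c ∈ Qᶜ, (tr F c).card := by
  have h1 : ∀ r, (F r \ Q).card = ∑ c ∈ Qᶜ, if c ∈ F r then 1 else 0 := by
    intro r
    rw [← Finset.card_filter]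
    congr 1
    ext c
    simp only [Finset.mem_sdiff, Finset.mem_filter, Finset.mem_compl]
    tauto
  have h2 : ∀ c, (tr F c).card = ∑ r, if c ∈ F r then 1 else 0 := by
    intro c
    rw [tr, Finset.card_filter]
  simp only [h1, h2]
  exact Finset.sum_comm

end Pool.Agent.MP_dc7d7b.TD
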