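import Pool.Agent.Lib.MP_dc7d7b_co.TD.FT

set_option autoImplicit false

/-!
EP (60 lines). q: `exists_extend` (Main.lean; see the start of `brooks_step` in ../TF/Bro.lean). `fit` with D2 = forb H ((T.erase t).erase u) f t: Deg d by
`forb_deg`, `Deg.mono`: t has at most d + 1 neighbours in T, u is one of them. hD: H.Adj (t, c) (z, f z i), z ∈ (T.erase t).erase u.
-/

namespace Pool.Agent.MP_dc7d7b.TD

open Finset TF

open Classical in
theorem ext_pair {d : ℕ} (hd : 5 ≤ d) {V : Type} {G : SimpleGraph V} {H : SimpleGraph (V × Fin (2 * d))} (hH : Cover G H)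
    (hdeg : ∀ (T : Finset V) (v : V), dg G T v ≤ d + 2) {T : Finset V} {t u : V} (ht : t ∈ T) (hu : u ∈ T)
    (htu : G.Adj t u) (h5 : dg G T t ≤ d + 1) {f : V → Equiv.Perm (Fin (2 * d))} (hf : Pk H (T.erase t) f) :
    ∃ g : V → Equiv.Perm (Fin (2 * d)), Pk H T g ∧ ∀ z, z ≠ t → z ≠ u → g z = f z := by
  obtain ⟨q, hq⟩ := exists_extend (fun a b => H.Adj (t, a) (u, b)) (fun a b b' h h' => hH.mat _ _ _ _ _ h h')
    (fun a a' b h h' => hH.mat _ _ _ _ _ h.symm h'.symm)
  have hW : (((T.erase t).erase u).filter (fun w => G.Adj t w)).card ≤ d := by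
    have h1 : insert u (((T.erase t).erase u).filter (fun w => G.Adj t w)) ⊆ T.filter (fun w => G.Adj t w) := by
      intro x hx
      rw [Finset.mem_insert] at hx
      rcases hx with rfl | hx
      · exact Finset.mem_filter.mpr ⟨hu, htu⟩
      · rw [Finset.mem_filter, Finset.mem_erase, Finset.mem_erase] at hx
        exact Finset.mem_filter.mpr ⟨hx.1.2.2, hx.2⟩
    have h2 : (T.filter (fun w => G.Adj t w)).card ≤ d + 1 := by
      unfold dg at h5
      convert h5
    have h3 := (Finset.card_le_card h1).trans h2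
    rw [Finset.card_insert_of_notMem] at h3
    · omega
    · rw [Finset.mem_filter, Finset.mem_erase, Finset.mem_erase]
      rintro ⟨⟨h4, _⟩, _⟩
      exact h4 rfl
  have h2 : Deg d (forb H ((T.erase t).erase u) f t) :=
    (forb_deg hH ((T.erase t).erase u) f t).mono (show _ ≤ d by convert hW)
  refine fit hd hH ht hu htu (hdeg T u) hf hq h2 ?_
  intro i c z hz hzt hzu hadj
  exact ⟨z, Finset.mem_erase.2 ⟨hzu, Finset.mem_erase.2 ⟨hzt, hz⟩⟩, hadj.symm⟩

end Pool.Agent.MP_dc7d7b.TD
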