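import Pool.Agent.Lib.MP_dc7d7b_co.TD.Defs

set_option autoImplicit false

/-!
SR (150 lines). T = T0 F Q has d - 1 rows, m1, m2 are Out. m1.1, m2.1 ∉ T. S = (T ∪ {m1.1, m2.1})ᶜ, card S = d - 1; C' = (Q ∪ {m1.2, m2.2})ᶜ, card C' = d - 1.
For c ∈ C': tr F c ⊆ S (rows of T are equal to Q; F m1.1 ⊆ insert m1.2 Q, the same for m2) and card ≥ d - 1: tr F c = S.
Claim Q' = S. If not, no column of C' is in T0 (tr F) Q', so T0 (tr F) Q' ⊆ Q ∪ {m1.2, m2.2}; it has at least d - 2 ≥ 3 elements (h.lo), so it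
contains a column c ∈ Q: T ⊆ tr F c = Q', card T = d - 1 = card Q', so Q' = T. The columns m1.2, m2.2 are not in T0 (tr F) T, since
m1.1 ∈ tr F m1.2, m1.1 ∉ T. So T0 (tr F) T ⊆ Q, at least d - 2 columns of Q, and the row m1.1 (∉ T) contains none of them: F m1.1 has at most
1 + 1 = 2 cells (one in Q, and m1.2). Contradiction to d - 1 ≥ 4.
So Q' = S. By `one` of h, say Out (tr F) S x.swap: x.1 ∉ S, x.1 ∈ tr F x.2, tr F x.2 ⊆ insert x.1 S. x.2 ∉ C' (there tr F x.2 = S). x.2 ∉ Q (there
T ⊆ tr F x.2 ⊆ insert x.1 S, T ∩ S = ∅, card T ≥ 2). So x.2 = m1.2 or m2.2. If x.2 = m1.2: m1.1 ∈ tr F x.2, m1.1 ∉ S, so m1.1 = x.1, x = m1. Etc.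
-/

namespace Pool.Agent.MP_dc7d7b.TD

open Finset

private theorem card_comp {d : ℕ} (hd : 5 ≤ d) {A : Finset (Fin (2 * d))} (hA : A.card + 1 = d)
    {a b : Fin (2 * d)} (hab : a ≠ b) (ha : a ∉ A) (hb : b ∉ A) :
    ((A ∪ {a, b})ᶜ).card + 1 = d := by
  have h1 : Disjoint A ({a, b} : Finset (Fin (2 * d))) := by
    rw [disjoint_left]
    intro x hx hx'
    rw [mem_insert, mem_singleton] at hx'
    rcases hx' with rfl | rfl
    · exact ha hx
    · exact hb hx
  have h2 : (A ∪ {a, b}).card = A.card + 2 := by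
    rw [card_union_of_disjoint h1, card_pair hab]
  have h3 := card_compl (A ∪ {a, b})
  rw [Fintype.card_fin] at h3
  omega

theorem star {d : ℕ} (hd : 5 ≤ d) {F : Fin (2 * d) → Finset (Fin (2 * d))} (hF : Dg (d - 1) F)
    {Q : Finset (Fin (2 * d))} (hQ : Q.card + 1 = d) (ht : (T0 F Q).card + 1 = d)
    {m1 m2 : Fin (2 * d) × Fin (2 * d)} (h1 : m1.1 ≠ m2.1) (h2 : m1.2 ≠ m2.2) (o1 : Out F Q m1) (o2 : Out F Q m2)
    {Q' : Finset (Fin (2 * d))} {x y : Fin (2 * d) × Fin (2 * d)} (h : RT (tr F) Q' x.swap y.swap) :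
    x = m1 ∨ x = m2 ∨ y = m1 ∨ y = m2 := by
  obtain ⟨a1, a2, a3⟩ := o1
  obtain ⟨b1, b2, b3⟩ := o2
  have n1 : m1.1 ∉ T0 F Q := fun hm => by rw [mem_T0] at hm; rw [hm] at a2; exact a1 a2
  have n2 : m2.1 ∉ T0 F Q := fun hm => by rw [mem_T0] at hm; rw [hm] at b2; exact b1 b2
  have cS := card_comp hd ht h1 n1 n2
  have cC := card_comp hd hQ h2 a1 b1
  set S := (T0 F Q ∪ {m1.1, m2.1})ᶜ with hS
  have memS : ∀ r, r ∈ S ↔ r ∉ T0 F Q ∧ r ≠ m1.1 ∧ r ≠ m2.1 := by
    intro r
    rw [hS, mem_compl, mem_union, mem_insert, mem_singleton]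
    tauto
  -- the columns outside `Q`, `m1.2`, `m2.2`
  have colS : ∀ c, c ∉ Q → c ≠ m1.2 → c ≠ m2.2 → tr F c = S := by
    intro c hc hc1 hc2
    apply eq_of_subset_of_card_le
    · intro r hr
      rw [mem_tr] at hr
      rw [memS]
      refine ⟨fun hT => ?_, fun hr1 => ?_, fun hr2 => ?_⟩
      · rw [mem_T0] at hT
        rw [hT] at hr
        exact hc hr
      · rw [hr1] at hr
        rcases mem_insert.1 (a3 hr) with h | h
        · exact hc1 h
        · exact hc h
      · rw [hr2] at hr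
        rcases mem_insert.1 (b3 hr) with h | h
        · exact hc2 h
        · exact hc h
    · have := hF.col c
      omega
  -- the columns of `Q`
  have colT : ∀ c ∈ Q, T0 F Q ⊆ tr F c := by
    intro c hc r hr
    rw [mem_T0] at hr
    rw [mem_tr, hr]
    exact hc
  have hQS : Q' = S := by
    by_contra hne
    have u1 : T0 (tr F) Q' ⊆ Q ∪ {m1.2, m2.2} := by
      intro c hc
      rw [mem_T0] at hc
      rw [mem_union, mem_insert, mem_singleton]
      by_contra hcon
      push Not at hcon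
      exact hne (hc.symm.trans (colS c hcon.1 hcon.2.1 hcon.2.2))
    obtain ⟨c, hcU, hc⟩ : ∃ c ∈ T0 (tr F) Q', c ∉ ({m1.2, m2.2} : Finset (Fin (2 * d))) := by
      by_contra hcon
      push Not at hcon
      have h3 : (T0 (tr F) Q').card ≤ ({m1.2, m2.2} : Finset (Fin (2 * d))).card := card_le_card hcon
      rw [card_pair h2] at h3
      have := h.lo
      omega
    have hcQ : c ∈ Q := by
      rcases mem_union.1 (u1 hcU) with h3 | h3
      · exact h3
      · exact absurd h3 hc
    rw [mem_T0] at hcU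
    have hQT : T0 F Q = Q' := by
      rw [← hcU]
      apply eq_of_subset_of_card_le (colT c hcQ)
      rw [hcU]
      have := h.cQ
      omega
    -- columns with the rows `Q' = T`
    have u2 : F m1.1 ⊆ insert m1.2 (Q \ T0 (tr F) Q') := by
      intro e he
      rcases mem_insert.1 (a3 he) with h3 | h3
      · rw [h3]; exact mem_insert_self _ _
      · apply mem_insert_of_mem
        rw [mem_sdiff]
        refine ⟨h3, fun h4 => ?_⟩
        rw [mem_T0] at h4
        have h5 : m1.1 ∈ tr F e := mem_tr.2 he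
        rw [h4, ← hQT] at h5
        exact n1 h5
    have u3 : T0 (tr F) Q' ⊆ Q := by
      intro e he
      have h3 := u1 he
      rw [mem_T0] at he
      rw [mem_union, mem_insert, mem_singleton] at h3
      rcases h3 with h3 | h3 | h3
      · exact h3
      · exfalso
        have h5 : m1.1 ∈ tr F e := by rw [mem_tr, h3]; exact a2
        rw [he, ← hQT] at h5
        exact n1 h5
      · exfalso
        have h5 : m2.1 ∈ tr F e := by rw [mem_tr, h3]; exact b2
        rw [he, ← hQT] at h5
        exact n2 h5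
    have h3 := card_le_card u2
    have h4 := card_insert_le m1.2 (Q \ T0 (tr F) Q')
    have h5 := card_sdiff_add_card_eq_card u3
    have h6 := h.lo
    have h7 := hF.row m1.1
    omega
  subst hQS
  have key : ∀ z : Fin (2 * d) × Fin (2 * d), Out (tr F) S z.swap → z = m1 ∨ z = m2 := by
    rintro ⟨r, c⟩ ⟨k1, k2, k3⟩
    change r ∉ S at k1
    change r ∈ tr F c at k2
    change tr F c ⊆ insert r S at k3
    have hcQ : c ∉ Q := by
      intro hc
      have h3 : T0 F Q ⊆ {r} := by
        intro e he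
        rcases mem_insert.1 (k3 (colT c hc he)) with h4 | h4
        · rw [h4]; exact mem_singleton_self _
        · exact absurd he ((memS e).1 h4).1
      have h4 := card_le_card h3
      rw [card_singleton] at h4
      omega
    by_cases hc1 : c = m1.2
    · left
      have h5 : m1.1 ∈ tr F c := by rw [mem_tr, hc1]; exact a2
      rcases mem_insert.1 (k3 h5) with h6 | h6
      · exact Prod.ext h6.symm hc1
      · exact absurd rfl ((memS _).1 h6).2.1
    · by_cases hc2 : c = m2.2
      · right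
        have h5 : m2.1 ∈ tr F c := by rw [mem_tr, hc2]; exact b2
        rcases mem_insert.1 (k3 h5) with h6 | h6
        · exact Prod.ext h6.symm hc2
        · exact absurd rfl ((memS _).1 h6).2.2
      · exfalso
        rw [colS c hcQ hc1 hc2] at k2
        exact k1 k2
  rcases h.one with h3 | h3
  · rcases key x h3 with h4 | h4
    · exact Or.inl h4
    · exact Or.inr (Or.inl h4)
  · rcases key y h3 with h4 | h4
    · exact Or.inr (Or.inr (Or.inl h4))
    · exact Or.inr (Or.inr (Or.inr h4))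

end Pool.Agent.MP_dc7d7b.TD
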