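import Pool.Agent.Lib.MP_dc7d7b_co.TD.Defs

set_option autoImplicit false

/-!
UQ (120 lines). The set Q of the row type is unique. Let Q ≠ Q', T = T0 F Q, T' = T0 F Q' (disjoint), card T, card T' ≥ d - 2. Let Z = (T ∪ T')ᶜ,
card Z ≤ 2 d - (2 d - 4) = 4. There are at least 2 columns outside Q ∪ Q' (card (Q ∪ Q') ≤ 2 d - 2); for such a column c: tr F c ⊆ Z (rows of T, T'
are equal to Q, Q'), and d - 1 ≤ card (tr F c) ≤ card Z ≤ 4: so d = 5, card Z = 4 and tr F c = Z, and card T = 3 = d - 2. By `two` of h: Out F Q m and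
Out F Q m'. The row m.1 is not in T (m.2 ∈ F m.1, m.2 ∉ Q) and not in Z (it would contain two columns outside Q, but F m.1 ⊆ insert m.2 Q). So
m.1 ∈ T', F m.1 = Q' ⊆ insert m.2 Q. The same for m': Q' ⊆ insert m'.2 Q. As m.2 ≠ m'.2: Q' ⊆ Q, Q' = Q (same card). Contradiction.
-/

namespace Pool.Agent.MP_dc7d7b.TD

open Finset

theorem rt_unique {d : ℕ} (hd : 5 ≤ d) {F : Fin (2 * d) → Finset (Fin (2 * d))} (hF : Dg (d - 1) F)
    {Q Q' : Finset (Fin (2 * d))} {m m' p p' : Fin (2 * d) × Fin (2 * d)} (hm : m.2 ≠ m'.2)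
    (h : RT F Q m m') (h' : RT F Q' p p') : Q = Q' := by
  by_contra hne
  have hdisj : Disjoint (T0 F Q) (T0 F Q') := by
    rw [Finset.disjoint_left]
    intro r hr hr'
    rw [mem_T0] at hr hr'
    exact hne (hr.symm.trans hr')
  have hZc : ((T0 F Q ∪ T0 F Q')ᶜ).card = 2 * d - ((T0 F Q).card + (T0 F Q').card) := by
    rw [Finset.card_compl, Fintype.card_fin, Finset.card_union_of_disjoint hdisj]
  have hcQ := h.cQ
  have hcQ' := h'.cQ
  have hQQ : (Q ∪ Q').card ≤ 2 * d - 2 := by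
    have := Finset.card_union_le Q Q'
    omega
  have hc3 : 1 < ((Q ∪ Q')ᶜ).card := by
    rw [Finset.card_compl, Fintype.card_fin]
    omega
  obtain ⟨c1, hc1, c2, hc2, hcc⟩ := Finset.one_lt_card.mp hc3
  have hsub : ∀ c ∈ (Q ∪ Q')ᶜ, tr F c ⊆ (T0 F Q ∪ T0 F Q')ᶜ := by
    intro c hc r hr
    rw [mem_tr] at hr
    rw [Finset.mem_compl, Finset.mem_union] at hc ⊢
    rintro (h3 | h3)
    · rw [mem_T0] at h3
      rw [h3] at hr
      exact hc (Or.inl hr)
    · rw [mem_T0] at h3
      rw [h3] at hr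
      exact hc (Or.inr hr)
  have hle := Finset.card_le_card (hsub c1 hc1)
  have hlo := h.lo
  have hlo' := h'.lo
  have hcol := hF.col c1
  have hd5 : d = 5 := by omega
  have hT : (T0 F Q).card + 2 = d := by omega
  have hZ4 : ((T0 F Q ∪ T0 F Q')ᶜ).card = 4 := by omega
  have heq : ∀ c ∈ (Q ∪ Q')ᶜ, tr F c = (T0 F Q ∪ T0 F Q')ᶜ := by
    intro c hc
    apply Finset.eq_of_subset_of_card_le (hsub c hc)
    have := hF.col c
    omega
  obtain ⟨hom, hom'⟩ := h.two hT
  have key : ∀ x : Fin (2 * d) × Fin (2 * d), Out F Q x → Q' ⊆ insert x.2 Q := by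
    intro x hx
    have h1 : x.1 ∉ T0 F Q := by
      rw [mem_T0]
      intro h2
      have h3 := hx.2.1
      rw [h2] at h3
      exact hx.1 h3
    have h2 : x.1 ∉ (T0 F Q ∪ T0 F Q')ᶜ := by
      intro h3
      have h4 : c1 ∈ F x.1 := by
        rw [← mem_tr, heq c1 hc1]
        exact h3
      have h5 : c2 ∈ F x.1 := by
        rw [← mem_tr, heq c2 hc2]
        exact h3
      have h6 := Finset.mem_insert.mp (hx.2.2 h4)
      have h7 := Finset.mem_insert.mp (hx.2.2 h5)
      have h8 : c1 = x.2 :=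
        h6.resolve_right (fun h => (Finset.mem_compl.mp hc1) (Finset.mem_union_left _ h))
      have h9 : c2 = x.2 :=
        h7.resolve_right (fun h => (Finset.mem_compl.mp hc2) (Finset.mem_union_left _ h))
      exact hcc (h8.trans h9.symm)
    have h3 : x.1 ∈ T0 F Q' := by
      rw [Finset.mem_compl, not_not, Finset.mem_union] at h2
      exact h2.resolve_left h1
    rw [mem_T0] at h3
    rw [← h3]
    exact hx.2.2
  apply hne
  symm
  apply Finset.eq_of_subset_of_card_le
  · intro x hx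
    have h1 := Finset.mem_insert.mp (key m hom hx)
    have h2 := Finset.mem_insert.mp (key m' hom' hx)
    rcases h1 with h1 | h1
    · rcases h2 with h2 | h2
      · exact absurd (h1.symm.trans h2) hm
      · exact h2
    · exact h1
  · omega

end Pool.Agent.MP_dc7d7b.TD
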