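import Pool.Agent.Lib.MP_dc7d7b_co.TD.TY
import Pool.Agent.Lib.MP_dc7d7b_co.TD.CT
import Pool.Agent.Lib.MP_dc7d7b_co.TD.UQ
import Pool.Agent.Lib.MP_dc7d7b_co.TD.SR

set_option autoImplicit false

/-!
FE (200 lines). Suppose not: for all m ≠ m' in M no perfect matching avoids both, so by `pair_type` every pair is of row type
(∃ Q, RT F Q m m') or of column type. LEMMA `side` (for F; the column side is the same lemma for tr F, with M.image Prod.swap or by stating
it for a general type of pairs): there is A ⊆ M such that, for all x ≠ y in M of row type, either x ∈ A ∧ y ∈ A, or card A ≤ 1 and (x ∈ A ∨ y ∈ A);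
and card A ≤ 3; OR there are m1 ≠ m2 in M such that every pair x ≠ y of M (of any type) contains m1 or m2.
Proof: no row pair: A = ∅. Otherwise Q of one row pair; by `rt_unique` it is the Q of all row pairs. A = {m ∈ M | Out F Q m}; `out_card`: card A ≤ d + 1 - card T0.
card T0 = d - 2: card A ≤ 3 and `two`. card T0 = d - 1: card A ≤ 2 and `one`; if card A = 2, A = {m1, m2}: row pairs contain m1 or m2 by `one`, column pairs
by `star`.
END: M has d ≥ 5 elements, so it has two elements x ≠ y different from m1, m2: the OR case is impossible (on both sides). So we have A for the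
rows, B for the columns. (1) card A, card B ≤ 1: take x ≠ y in M \ (A ∪ B) (card M ≥ 4): the pair has no type. (2) card A ≥ 2 (so row pairs are inside A),
card B ≤ 1: take x ∈ M \ (A ∪ B) (card M ≥ 5 > 3 + 1), y ∈ M \ B, y ≠ x: not inside A, does not meet B: no type. (3) symmetric. (4) both ≥ 2: take
x ∈ M \ A: for all z ≠ x in M the pair x, z is of column type, so x, z ∈ B: M ⊆ B, card 5 ≤ 3. Contradiction.
-/

namespace Pool.Agent.MP_dc7d7b.TD

open Finset

private def SideP {α : Type} (M : Finset α) (R C : α → α → Prop) : Prop :=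
  (∃ m1 m2, ∀ x ∈ M, ∀ y ∈ M, x ≠ y → R x y ∨ C x y → x = m1 ∨ x = m2 ∨ y = m1 ∨ y = m2) ∨
    ∃ A : Finset α, A.card ≤ 3 ∧ ((∀ x ∈ M, ∀ y ∈ M, x ≠ y → R x y → x ∈ A ∧ y ∈ A) ∨
      (A.card ≤ 1 ∧ ∀ x ∈ M, ∀ y ∈ M, x ≠ y → R x y → x ∈ A ∨ y ∈ A))

open Classical in
private theorem fin_comb {α : Type} {M : Finset α} (hc : 5 ≤ M.card) {R C : α → α → Prop}
    (hRC : ∀ x ∈ M, ∀ y ∈ M, x ≠ y → R x y ∨ C x y) (hR : SideP M R C) (hC : SideP M C R) : False := by
  have two : ∀ m1 m2 : α, ∃ x ∈ M, ∃ y ∈ M, x ≠ y ∧ x ≠ m1 ∧ x ≠ m2 ∧ y ≠ m1 ∧ y ≠ m2 := by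
    intro m1 m2
    have h1 : M.card ≤ (M \ {m1, m2}).card + ({m1, m2} : Finset α).card := by
      have := Finset.le_card_sdiff ({m1, m2} : Finset α) M
      omega
    have h2 : ({m1, m2} : Finset α).card ≤ 2 := Finset.card_le_two
    obtain ⟨x, hx, y, hy, hxy⟩ := Finset.one_lt_card.1 (show 1 < (M \ {m1, m2}).card by omega)
    simp only [Finset.mem_sdiff, Finset.mem_insert, Finset.mem_singleton, not_or] at hx hy
    exact ⟨x, hx.1, y, hy.1, hxy, hx.2.1, hx.2.2, hy.2.1, hy.2.2⟩
  have cs : ∀ A : Finset α, M.card ≤ (M \ A).card + A.card := by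
    intro A
    have := Finset.le_card_sdiff A M
    omega
  rcases hR with ⟨m1, m2, h⟩ | ⟨A, hA3, hA⟩
  · obtain ⟨x, hx, y, hy, hxy, a, b, c, e⟩ := two m1 m2
    rcases h x hx y hy hxy (hRC x hx y hy hxy) with h | h | h | h
    · exact a h
    · exact b h
    · exact c h
    · exact e h
  rcases hC with ⟨m1, m2, h⟩ | ⟨B, hB3, hB⟩
  · obtain ⟨x, hx, y, hy, hxy, a, b, c, e⟩ := two m1 m2
    rcases h x hx y hy hxy (hRC x hx y hy hxy).symm with h | h | h | h
    · exact a h
    · exact b h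
    · exact c h
    · exact e h
  rcases hA with hA | ⟨hA1, hA⟩
  · rcases hB with hB | ⟨hB1, hB⟩
    · have h1 := cs A
      obtain ⟨x, hx⟩ := Finset.card_pos.1 (show 0 < (M \ A).card by omega)
      rw [Finset.mem_sdiff] at hx
      have hsub : M ⊆ B := by
        intro z hz
        by_cases hzx : x = z
        · obtain ⟨w, hw, hwx⟩ := Finset.exists_mem_ne (show 1 < M.card by omega) x
          rcases hRC x hx.1 w hw hwx.symm with h | h
          · exact absurd (hA x hx.1 w hw hwx.symm h).1 hx.2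
          · exact hzx ▸ (hB x hx.1 w hw hwx.symm h).1
        · rcases hRC x hx.1 z hz hzx with h | h
          · exact absurd (hA x hx.1 z hz hzx h).1 hx.2
          · exact (hB x hx.1 z hz hzx h).2
      have := Finset.card_le_card hsub
      omega
    · have h1 := cs (A ∪ B)
      have h2 := Finset.card_union_le A B
      obtain ⟨x, hx⟩ := Finset.card_pos.1 (show 0 < (M \ (A ∪ B)).card by omega)
      rw [Finset.mem_sdiff, Finset.mem_union, not_or] at hx
      have h3 := cs B
      obtain ⟨y, hy, hyx⟩ := Finset.exists_mem_ne (show 1 < (M \ B).card by omega) x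
      rw [Finset.mem_sdiff] at hy
      rcases hRC x hx.1 y hy.1 hyx.symm with h | h
      · exact hx.2.1 (hA x hx.1 y hy.1 hyx.symm h).1
      · rcases hB x hx.1 y hy.1 hyx.symm h with h | h
        · exact hx.2.2 h
        · exact hy.2 h
  · rcases hB with hB | ⟨hB1, hB⟩
    · have h1 := cs (A ∪ B)
      have h2 := Finset.card_union_le A B
      obtain ⟨x, hx⟩ := Finset.card_pos.1 (show 0 < (M \ (A ∪ B)).card by omega)
      rw [Finset.mem_sdiff, Finset.mem_union, not_or] at hx
      have h3 := cs A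
      obtain ⟨y, hy, hyx⟩ := Finset.exists_mem_ne (show 1 < (M \ A).card by omega) x
      rw [Finset.mem_sdiff] at hy
      rcases hRC x hx.1 y hy.1 hyx.symm with h | h
      · rcases hA x hx.1 y hy.1 hyx.symm h with h | h
        · exact hx.2.1 h
        · exact hy.2 h
      · exact hx.2.2 (hB x hx.1 y hy.1 hyx.symm h).1
    · have h1 := cs (A ∪ B)
      have h2 := Finset.card_union_le A B
      obtain ⟨x, hx, y, hy, hxy⟩ := Finset.one_lt_card.1 (show 1 < (M \ (A ∪ B)).card by omega)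
      rw [Finset.mem_sdiff, Finset.mem_union, not_or] at hx hy
      rcases hRC x hx.1 y hy.1 hxy with h | h
      · rcases hA x hx.1 y hy.1 hxy h with h | h
        · exact hx.2.1 h
        · exact hy.2.1 h
      · rcases hB x hx.1 y hy.1 hxy h with h | h
        · exact hx.2.2 h
        · exact hy.2.2 h

open Classical in
private theorem side {d : ℕ} (hd : 5 ≤ d) {F : Fin (2 * d) → Finset (Fin (2 * d))} (hF : Dg (d - 1) F)
    {M : Finset (Fin (2 * d) × Fin (2 * d))} (hM : Mat M) :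
    SideP M (fun x y => ∃ Q, RT F Q x y) (fun x y => ∃ Q, RT (tr F) Q x.swap y.swap) := by
  by_cases h : ∃ x ∈ M, ∃ y ∈ M, x ≠ y ∧ ∃ Q, RT F Q x y
  · obtain ⟨x0, hx0, y0, hy0, hxy0, Q, hQ⟩ := h
    have hMA : Mat (M.filter fun m => Out F Q m) := fun x hx y hy hxy =>
      hM x (Finset.mem_filter.1 hx).1 y (Finset.mem_filter.1 hy).1 hxy
    have hcard := out_card hd hF hQ.cQ hQ.lo hQ.hi hMA (fun m hm => (Finset.mem_filter.1 hm).2)
    have hun : ∀ x ∈ M, ∀ y ∈ M, x ≠ y → (∃ Q, RT F Q x y) → RT F Q x y := by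
      intro x hx y hy hxy h'
      obtain ⟨Q', hQ'⟩ := h'
      have e := rt_unique hd hF (hM x0 hx0 y0 hy0 hxy0).2 hQ hQ'
      rw [e]
      exact hQ'
    have hlo := hQ.lo
    have hhi := hQ.hi
    by_cases ht : (T0 F Q).card + 2 = d
    · refine Or.inr ⟨M.filter fun m => Out F Q m, by omega, Or.inl fun x hx y hy hxy h' => ?_⟩
      have h2 := (hun x hx y hy hxy h').two ht
      exact ⟨Finset.mem_filter.2 ⟨hx, h2.1⟩, Finset.mem_filter.2 ⟨hy, h2.2⟩⟩
    · have ht1 : (T0 F Q).card + 1 = d := by omega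
      by_cases hA1 : (M.filter fun m => Out F Q m).card ≤ 1
      · refine Or.inr ⟨M.filter fun m => Out F Q m, by omega, Or.inr ⟨hA1, fun x hx y hy hxy h' => ?_⟩⟩
        rcases (hun x hx y hy hxy h').one with h2 | h2
        · exact Or.inl (Finset.mem_filter.2 ⟨hx, h2⟩)
        · exact Or.inr (Finset.mem_filter.2 ⟨hy, h2⟩)
      · have hA2 : (M.filter fun m => Out F Q m).card = 2 := by omega
        obtain ⟨m1, m2, hne, hA⟩ := Finset.card_eq_two.1 hA2
        have hm1 : m1 ∈ M.filter fun m => Out F Q m := by rw [hA]; simp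
        have hm2 : m2 ∈ M.filter fun m => Out F Q m := by rw [hA]; simp
        have hs := hMA m1 hm1 m2 hm2 hne
        refine Or.inl ⟨m1, m2, fun x hx y hy hxy h' => ?_⟩
        have hin : ∀ z ∈ M, Out F Q z → z = m1 ∨ z = m2 := by
          intro z hz ho
          have h3 : z ∈ M.filter fun m => Out F Q m := Finset.mem_filter.2 ⟨hz, ho⟩
          rw [hA] at h3
          simpa using h3
        rcases h' with h' | ⟨Q', h'⟩
        · rcases (hun x hx y hy hxy h').one with h2 | h2
          · rcases hin x hx h2 with h3 | h3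
            · exact Or.inl h3
            · exact Or.inr (Or.inl h3)
          · rcases hin y hy h2 with h3 | h3
            · exact Or.inr (Or.inr (Or.inl h3))
            · exact Or.inr (Or.inr (Or.inr h3))
        · exact star hd hF hQ.cQ ht1 hs.1 hs.2 (Finset.mem_filter.1 hm1).2 (Finset.mem_filter.1 hm2).2 h'
  · refine Or.inr ⟨∅, by simp, Or.inl fun x hx y hy hxy h' => ?_⟩
    exact absurd ⟨x, hx, y, hy, hxy, h'⟩ h

open Classical in
private theorem side_tr {d : ℕ} (hd : 5 ≤ d) {F : Fin (2 * d) → Finset (Fin (2 * d))} (hF : Dg (d - 1) F)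
    {M : Finset (Fin (2 * d) × Fin (2 * d))} (hM : Mat M) :
    SideP M (fun x y => ∃ Q, RT (tr F) Q x.swap y.swap) (fun x y => ∃ Q, RT F Q x y) := by
  have hsw : ∀ x ∈ M, x.swap ∈ M.image Prod.swap := fun x hx => Finset.mem_image_of_mem _ hx
  have hM' : Mat (M.image Prod.swap) := by
    intro x hx y hy hxy
    obtain ⟨a, ha, rfl⟩ := Finset.mem_image.1 hx
    obtain ⟨b, hb, rfl⟩ := Finset.mem_image.1 hy
    have hab : a ≠ b := fun e => hxy (by rw [e])
    have h1 := hM a ha b hb hab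
    exact ⟨h1.2, h1.1⟩
  have hne : ∀ {x y : Fin (2 * d) × Fin (2 * d)}, x ≠ y → x.swap ≠ y.swap := fun h e => h (Prod.swap_injective e)
  have hsi : ∀ {x m : Fin (2 * d) × Fin (2 * d)}, x.swap = m → x = m.swap := by
    intro x m e
    rw [← e, Prod.swap_swap]
  rcases side hd hF.tr hM' with ⟨m1, m2, h⟩ | ⟨A, hA3, hA⟩
  · refine Or.inl ⟨m1.swap, m2.swap, fun x hx y hy hxy h' => ?_⟩
    have h1 := h x.swap (hsw x hx) y.swap (hsw y hy) (hne hxy) (by
      rcases h' with ⟨Q, h'⟩ | ⟨Q, h'⟩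
      · exact Or.inl ⟨Q, h'⟩
      · refine Or.inr ⟨Q, ?_⟩
        rw [tr_tr, Prod.swap_swap, Prod.swap_swap]
        exact h')
    rcases h1 with h1 | h1 | h1 | h1
    · exact Or.inl (hsi h1)
    · exact Or.inr (Or.inl (hsi h1))
    · exact Or.inr (Or.inr (Or.inl (hsi h1)))
    · exact Or.inr (Or.inr (Or.inr (hsi h1)))
  · have hmem : ∀ x : Fin (2 * d) × Fin (2 * d), x.swap ∈ A → x ∈ A.image Prod.swap := fun x hx =>
      Finset.mem_image.2 ⟨x.swap, hx, Prod.swap_swap x⟩
    refine Or.inr ⟨A.image Prod.swap, Finset.card_image_le.trans hA3, ?_⟩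
    rcases hA with hA | ⟨hA1, hA⟩
    · refine Or.inl fun x hx y hy hxy h' => ?_
      have h1 := hA x.swap (hsw x hx) y.swap (hsw y hy) (hne hxy) h'
      exact ⟨hmem x h1.1, hmem y h1.2⟩
    · refine Or.inr ⟨Finset.card_image_le.trans hA1, fun x hx y hy hxy h' => ?_⟩
      rcases hA x.swap (hsw x hx) y.swap (hsw y hy) (hne hxy) h' with h1 | h1
      · exact Or.inl (hmem x h1)
      · exact Or.inr (hmem y h1)

theorem two_avoid {d : ℕ} (hd : 5 ≤ d) {F : Fin (2 * d) → Finset (Fin (2 * d))} (hF : Dg (d - 1) F)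
    (hP : ∃ P : Equiv.Perm (Fin (2 * d)), ∀ r, P r ∈ F r) {M : Finset (Fin (2 * d) × Fin (2 * d))} (hM : Mat M)
    (hc : M.card = d) :
    ∃ m ∈ M, ∃ m' ∈ M, m ≠ m' ∧ ∃ P : Equiv.Perm (Fin (2 * d)), (∀ r, P r ∈ F r) ∧ P m.1 ≠ m.2 ∧ P m'.1 ≠ m'.2 := by
  by_contra hno
  refine fin_comb (M := M) (by omega) (fun x hx y hy hxy => ?_) (side hd hF hM) (side_tr hd hF hM)
  have h1 := hM x hx y hy hxy
  refine pair_type hd hF hP h1.1 h1.2 fun P hPF => ?_
  by_contra h2
  rw [not_or] at h2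
  exact hno ⟨x, hx, y, hy, hxy, P, hPF, h2.1, h2.2⟩

end Pool.Agent.MP_dc7d7b.TD
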