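import Pool.Agent.Lib.MP_dc7d7b_co.TD.FE

set_option autoImplicit false

/-!
PG (130 lines). Everything from ../Pair.lean (namespace Pool.Agent.MP_dc7d7b, α = Fin (2 * d)). F i = {c | ¬ D1 i c}: Dg (d - 1) F (2 d - (d + 1)). Suppose
the conclusion fails. For every σ avoiding D1 there is no τ avoiding D i c := D2 i c ∨ σ i = c, so `hall` gives R, C with Bad D2 σ R C
(Pool.Agent.MP_dc7d7b.Bad). Take the σ0 of hP and R, C. `bad_cases` (Pair.lean): RowBad d D2 σ0 R C or RowBad d (tr D2) σ0.symm C R. First case: M = the cells (r, σ0 r),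
r ∈ R (image of R): card d, and σ0 r ∈ C (RowBad.mem); second case: M = the cells (σ0.symm c, c), c ∈ C: card d, σ0.symm c ∈ R. In both cases M is a matching of
card d with σ0 m.1 = m.2, m.1 ∈ R, m.2 ∈ C for m ∈ M. `two_avoid` gives m ≠ m' in M and P (perfect matching of F) with P m.1 ≠ m.2, P m'.1 ≠ m'.2. P avoids D1, so
Bad D2 P R' C' for some R', C'; `bad_bad` (i = m.1, j = m'.1): P m.1 = σ0 m.1 = m.2 or P m'.1 = m'.2. Contradiction.
-/

namespace Pool.Agent.MP_dc7d7b.TD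

open Finset

theorem pairG {d : ℕ} (hd : 5 ≤ d) {D1 D2 : Fin (2 * d) → Fin (2 * d) → Prop} (h1 : Deg (d + 1) D1)
    (hP : ∃ σ : Equiv.Perm (Fin (2 * d)), ∀ i, ¬ D1 i (σ i)) (h2 : Deg d D2) :
    ∃ σ τ : Equiv.Perm (Fin (2 * d)), (∀ i, ¬ D1 i (σ i)) ∧ (∀ i, ¬ D2 i (τ i)) ∧ ∀ i, σ i ≠ τ i := by
  classical
  by_contra hcon
  have hα : Fintype.card (Fin (2 * d)) = 2 * d := Fintype.card_fin _
  have hbad : ∀ σ : Equiv.Perm (Fin (2 * d)), (∀ x, ¬ D1 x (σ x)) → ∃ R C, Bad D2 σ R C := by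
    intro σ hσ
    obtain ⟨R, C, h3, h4⟩ := hall (fun x y => D2 x y ∨ σ x = y) (by
      rintro ⟨τ, hτ⟩
      exact hcon ⟨σ, τ, hσ, fun x h => hτ x (Or.inl h), fun x h => hτ x (Or.inr h)⟩)
    exact ⟨R, C, h3, h4⟩
  obtain ⟨σ0, hσ0⟩ := hP
  obtain ⟨R, C, hb⟩ := hbad σ0 hσ0
  obtain ⟨M, hMc, hMm⟩ : ∃ M : Finset (Fin (2 * d) × Fin (2 * d)), M.card = d ∧
      ∀ m ∈ M, σ0 m.1 = m.2 ∧ m.1 ∈ R ∧ m.2 ∈ C := by
    rcases bad_cases hα h2 hb with h | h
    · refine ⟨R.image (fun r => (r, σ0 r)), ?_, ?_⟩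
      · rw [Finset.card_image_of_injective _ (fun a b hab => (Prod.mk.inj hab).1), h.cR]
      · intro m hm
        obtain ⟨r, hr, rfl⟩ := Finset.mem_image.1 hm
        exact ⟨rfl, hr, h.mem r hr⟩
    · refine ⟨C.image (fun c => (σ0.symm c, c)), ?_, ?_⟩
      · rw [Finset.card_image_of_injective _ (fun a b hab => (Prod.mk.inj hab).2), h.cR]
      · intro m hm
        obtain ⟨c, hc, rfl⟩ := Finset.mem_image.1 hm
        exact ⟨σ0.apply_symm_apply c, h.mem c hc, hc⟩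
  have hM : Mat M := by
    intro x hx y hy hne
    have ex := (hMm x hx).1
    have ey := (hMm y hy).1
    refine ⟨fun h => hne (Prod.ext h ?_), fun h => hne (Prod.ext (σ0.injective ?_) h)⟩
    · rw [← ex, ← ey, h]
    · rw [ex, ey, h]
  have hF : Dg (d - 1) (fun i : Fin (2 * d) => univ.filter (fun c => ¬ D1 i c)) := by
    constructor
    · intro r
      have e : (univ.filter (fun c => ¬ D1 r c)) = (univ.filter (fun c => D1 r c))ᶜ := by
        ext c; simp
      have := h1.1 r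
      rw [e, Finset.card_compl, Fintype.card_fin]
      omega
    · intro c
      have e : tr (fun i : Fin (2 * d) => univ.filter (fun c => ¬ D1 i c)) c =
          (univ.filter (fun i => D1 i c))ᶜ := by
        ext r; simp [tr]
      have := h1.2 c
      rw [e, Finset.card_compl, Fintype.card_fin]
      omega
  obtain ⟨m, hm, m', hm', hne, P, hPF, hP1, hP2⟩ := two_avoid hd hF
    ⟨σ0, fun r => by simpa using hσ0 r⟩ hM hMc
  obtain ⟨R', C', hb'⟩ := hbad P (fun i => by simpa using hPF i)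
  obtain ⟨e1, r1, c1⟩ := hMm m hm
  obtain ⟨e2, r2, c2⟩ := hMm m' hm'
  rcases bad_bad hα (by omega) h2 hb hb' r1 (e1.symm ▸ c1) r2 (e2.symm ▸ c2)
    (hM m hm m' hm' hne).1 with h | h
  · exact hP1 (h.trans e1)
  · exact hP2 (h.trans e2)

end Pool.Agent.MP_dc7d7b.TD
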