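import Pool.Agent.Lib.MP_dc7d7b_co.TD.EP
import Pool.Agent.Lib.MP_dc7d7b_co.TD.ED

set_option autoImplicit false

/-!
# Packings with prescribed permutations at two nonadjacent vertices (the proof of ../TF/Prs.lean)
-/

namespace Pool.Agent.MP_dc7d7b.TD

open Finset Classical TF

theorem prescribed {d : ℕ} (hd : 5 ≤ d) {V : Type} {G : SimpleGraph V} {H : SimpleGraph (V × Fin (2 * d))} (hH : Cover G H)
    (hdeg : ∀ (T : Finset V) (v : V), dg G T v ≤ d + 2) {S : Finset V} {v x y : V} (hv : v ∈ S) (hxv : x ≠ v)
    (hyv : y ≠ v) (hxy : x ≠ y) (hnxy : ¬ G.Adj x y) (hcon : Con G ((S.erase x).erase y))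
    (px py : Equiv.Perm (Fin (2 * d))) :
    ∀ T ⊆ S.erase v, ∃ f : V → Equiv.Perm (Fin (2 * d)), f x = px ∧ f y = py ∧ Pk H T f := by
  intro T
  induction T using Finset.strongInduction with
  | H T ih =>
    intro hT
    by_cases hM : ((T.erase x).erase y).Nonempty
    · have hTS : T ⊆ S := hT.trans (Finset.erase_subset _ _)
      have hex : ∃ t ∈ (T.erase x).erase y, dg G T t ≤ d + 1 := by
        by_contra hno
        push Not at hno
        have hcl : Cl G ((S.erase x).erase y) ((T.erase x).erase y) := by
          refine ⟨Finset.erase_subset_erase _ (Finset.erase_subset_erase _ hTS), ?_⟩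
          intro a ha b hb hab
          have h6 : d + 2 ≤ dg G T a := hno a ha
          have h6' : dg G S a ≤ d + 2 := hdeg S a
          have hsub : T.filter (fun u => G.Adj a u) ⊆ S.filter (fun u => G.Adj a u) :=
            Finset.filter_subset_filter _ hTS
          have heq : T.filter (fun u => G.Adj a u) = S.filter (fun u => G.Adj a u) := by
            refine Finset.eq_of_subset_of_card_le hsub ?_
            unfold dg at h6 h6'
            exact h6'.trans h6
          rw [Finset.mem_erase, Finset.mem_erase] at hb ⊢
          refine ⟨hb.1, hb.2.1, ?_⟩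
          have hbf : b ∈ S.filter (fun u => G.Adj a u) := Finset.mem_filter.2 ⟨hb.2.2, hab⟩
          rw [← heq] at hbf
          exact (Finset.mem_filter.1 hbf).1
        have hMe := hcon _ hcl hM
        have hvM : v ∈ (T.erase x).erase y := by
          rw [hMe, Finset.mem_erase, Finset.mem_erase]
          exact ⟨hyv.symm, hxv.symm, hv⟩
        have hvT : v ∈ T := (Finset.mem_erase.1 (Finset.mem_erase.1 hvM).2).2
        exact (Finset.mem_erase.1 (hT hvT)).1 rfl
      obtain ⟨t, ht, h5⟩ := hex
      rw [Finset.mem_erase, Finset.mem_erase] at ht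
      obtain ⟨hty, htx, htT⟩ := ht
      obtain ⟨f, hfx, hfy, hf⟩ := ih (T.erase t) (Finset.erase_ssubset htT)
        ((Finset.erase_subset _ _).trans hT)
      by_cases h4 : dg G T t ≤ d
      · obtain ⟨g, hg, hg'⟩ := ext_d hH h4 hf
        exact ⟨g, by rw [hg' x htx.symm, hfx], by rw [hg' y hty.symm, hfy], hg⟩
      · have hcard : 0 < (((T.filter (fun u => G.Adj t u)).erase x).erase y).card := by
          have h1 : (T.filter (fun u => G.Adj t u)).card - 1 ≤
              ((T.filter (fun u => G.Adj t u)).erase x).card := Finset.pred_card_le_card_erase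
          have h2 : ((T.filter (fun u => G.Adj t u)).erase x).card - 1 ≤
              (((T.filter (fun u => G.Adj t u)).erase x).erase y).card :=
            Finset.pred_card_le_card_erase
          have h3 : d + 1 ≤ (T.filter (fun u => G.Adj t u)).card := by
            unfold dg at h4
            omega
          omega
        obtain ⟨u, hu⟩ := Finset.card_pos.1 hcard
        rw [Finset.mem_erase, Finset.mem_erase, Finset.mem_filter] at hu
        obtain ⟨huy, hux, huT, hut⟩ := hu
        obtain ⟨g, hg, hg'⟩ := ext_pair hd hH hdeg htT huT hut h5 hf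
        exact ⟨g, by rw [hg' x htx.symm hux.symm, hfx], by rw [hg' y hty.symm huy.symm, hfy], hg⟩
    · have hTxy : ∀ z ∈ T, z = x ∨ z = y := by
        intro z hz
        by_contra h
        rw [not_or] at h
        exact hM ⟨z, by rw [Finset.mem_erase, Finset.mem_erase]; exact ⟨h.2, h.1, hz⟩⟩
      refine ⟨fun z => if z = x then px else py, if_pos rfl, if_neg hxy.symm, ?_⟩
      intro i a ha b hb hab
      rcases hTxy a ha with rfl | rfl
      · rcases hTxy b hb with rfl | rfl
        · exact hH.fib _ _ _ hab
        · exact hnxy (hH.edge _ _ _ _ hab)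
      · rcases hTxy b hb with rfl | rfl
        · exact hnxy (hH.edge _ _ _ _ hab).symm
        · exact hH.fib _ _ _ hab

end Pool.Agent.MP_dc7d7b.TD
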