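import Pool.Agent.Lib.MP_dc7d7b_co.TD.Defs
import Pool.Agent.Lib.MP_dc7d7b_co.Pair

set_option autoImplicit false

/-!
TY (170 lines). No perfect matching of F avoids both m and m' (different rows and columns): type of the pair.
`hall` of ../Pair.lean (α = Fin (2 * d)) for D i c := c ∉ F i ∨ (i = m.1 ∧ c = m.2) ∨ (i = m'.1 ∧ c = m'.2): a rectangle R × C,
card R + card C = 2 d + 1, whose allowed cells are among m, m'. For r ∈ R: F r ⊆ Cᶜ except for m.2 if r = m.1, m'.2 if r = m'.1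
(at most one exception, m.1 ≠ m'.1). If card R ≤ 2 then card Cᶜ ≤ 1 and a row r ∈ R (R is nonempty: card C ≤ 2 d) has card (F r) ≤ 2 < d - 1:
contradiction. So R has a third row, card Cᶜ ≥ d - 1, card C ≤ d + 1. By columns (the same argument for tr F) card C ≥ 3 and
card R ≤ d + 1. So (card R, card C) = (d, d + 1) or (d + 1, d). First case: Q = Cᶜ, card Q = d - 1. Rows r ∈ R, r ≠ m.1, m'.1: F r ⊆ Q, card ≥ d - 1,
so F r = Q, r ∈ T0: lo. hi: a perfect matching maps T0 F Q into Q. For r = m.1 ∈ R: F r ⊆ insert m.2 Q; if r ∉ T0 then not F r ⊆ Q (card),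
so m.2 ∈ F r, m.2 ∉ Q: Out. The same for m'.1. one: card R = d > card T0, so some r ∈ R is not in T0, so r = m.1 or m'.1. two: card T0 = d - 2
and R \ {m.1, m'.1} ⊆ T0 has at least d - 2 elements: so it is equal to T0 and m.1, m'.1 ∈ R, and they are not in T0.
Second case: the same for tr F, m.swap, m'.swap (write the first case as a lemma about F, R, C and apply it twice).
-/

namespace Pool.Agent.MP_dc7d7b.TD

open Finset

private theorem ub {d : ℕ} (hd : 5 ≤ d) {F : Fin (2 * d) → Finset (Fin (2 * d))}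
    (hF : ∀ r, d - 1 ≤ (F r).card) {R C : Finset (Fin (2 * d))} (hRC : R.card + C.card = 2 * d + 1)
    {a b a' b' : Fin (2 * d)} (haa : a ≠ a')
    (hb : ∀ i ∈ R, ∀ c ∈ C, c ∈ F i → (i = a ∧ c = b) ∨ (i = a' ∧ c = b')) : C.card ≤ d + 1 := by
  have hCc : C.card + Cᶜ.card = 2 * d := by
    rw [Finset.card_add_card_compl, Fintype.card_fin]
  by_cases h2 : R.card ≤ 2
  · exfalso
    obtain ⟨r, hr⟩ : R.Nonempty := by
      rw [← Finset.card_pos]; omega
    have h3 : F r ⊆ insert (if r = a then b else b') Cᶜ := by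
      intro c hc
      rw [Finset.mem_insert, Finset.mem_compl]
      by_cases hcC : c ∈ C
      · left
        rcases hb r hr c hcC hc with ⟨h4, h5⟩ | ⟨h4, h5⟩
        · rw [if_pos h4]; exact h5
        · rw [if_neg (fun e => haa (e.symm.trans h4))]; exact h5
      · exact Or.inr hcC
    have h4 := (Finset.card_le_card h3).trans (Finset.card_insert_le _ _)
    have h5 := hF r
    omega
  · obtain ⟨r, hr, hr2⟩ : ∃ r ∈ R, r ∉ ({a, a'} : Finset (Fin (2 * d))) := by
      apply Finset.exists_mem_notMem_of_card_lt_card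
      exact lt_of_le_of_lt Finset.card_le_two (by omega)
    simp only [Finset.mem_insert, Finset.mem_singleton, not_or] at hr2
    have h3 : F r ⊆ Cᶜ := by
      intro c hc
      rw [Finset.mem_compl]
      intro hcC
      rcases hb r hr c hcC hc with h4 | h4
      · exact hr2.1 h4.1
      · exact hr2.2 h4.1
    have h4 := Finset.card_le_card h3
    have h5 := hF r
    omega

private theorem rowc {d : ℕ} (hd : 5 ≤ d) {F : Fin (2 * d) → Finset (Fin (2 * d))}
    (hF : ∀ r, d - 1 ≤ (F r).card) (hP : ∃ P : Equiv.Perm (Fin (2 * d)), ∀ r, P r ∈ F r)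
    {R C : Finset (Fin (2 * d))} (hR : R.card = d) (hC : C.card = d + 1)
    {m m' : Fin (2 * d) × Fin (2 * d)} (h1 : m.1 ≠ m'.1)
    (hb : ∀ i ∈ R, ∀ c ∈ C, c ∈ F i → (i = m.1 ∧ c = m.2) ∨ (i = m'.1 ∧ c = m'.2)) :
    ∃ Q, RT F Q m m' := by
  have hCc : C.card + Cᶜ.card = 2 * d := by
    rw [Finset.card_add_card_compl, Fintype.card_fin]
  have hQ : Cᶜ.card + 1 = d := by omega
  have hsub : ∀ r, F r ⊆ Cᶜ → F r = Cᶜ := fun r h =>
    Finset.eq_of_subset_of_card_le h (by have := hF r; omega)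
  have hT : ∀ r ∈ R, r ≠ m.1 → r ≠ m'.1 → r ∈ T0 F Cᶜ := by
    intro r hr n1 n2
    rw [mem_T0]
    apply hsub
    intro c hc
    rw [Finset.mem_compl]
    intro hcC
    rcases hb r hr c hcC hc with h4 | h4
    · exact n1 h4.1
    · exact n2 h4.1
  have hOm : m.1 ∈ R → m.1 ∉ T0 F Cᶜ → Out F Cᶜ m := by
    intro hr hn
    rw [mem_T0] at hn
    have h3 : ∀ c ∈ F m.1, c = m.2 ∨ c ∈ Cᶜ := by
      intro c hc
      by_cases hcC : c ∈ C
      · rcases hb m.1 hr c hcC hc with h4 | h4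
        · exact Or.inl h4.2
        · exact absurd h4.1 h1
      · exact Or.inr (Finset.mem_compl.2 hcC)
    refine ⟨?_, ?_, ?_⟩
    · intro hm
      apply hn
      apply hsub
      intro c hc
      rcases h3 c hc with h4 | h4
      · rw [h4]; exact hm
      · exact h4
    · by_contra hm
      apply hn
      apply hsub
      intro c hc
      rcases h3 c hc with h4 | h4
      · exact absurd (h4 ▸ hc) hm
      · exact h4
    · intro c hc
      rw [Finset.mem_insert]
      exact h3 c hc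
  have hOm' : m'.1 ∈ R → m'.1 ∉ T0 F Cᶜ → Out F Cᶜ m' := by
    intro hr hn
    rw [mem_T0] at hn
    have h3 : ∀ c ∈ F m'.1, c = m'.2 ∨ c ∈ Cᶜ := by
      intro c hc
      by_cases hcC : c ∈ C
      · rcases hb m'.1 hr c hcC hc with h4 | h4
        · exact absurd h4.1.symm h1
        · exact Or.inl h4.2
      · exact Or.inr (Finset.mem_compl.2 hcC)
    refine ⟨?_, ?_, ?_⟩
    · intro hm
      apply hn
      apply hsub
      intro c hc
      rcases h3 c hc with h4 | h4
      · rw [h4]; exact hm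
      · exact h4
    · by_contra hm
      apply hn
      apply hsub
      intro c hc
      rcases h3 c hc with h4 | h4
      · exact absurd (h4 ▸ hc) hm
      · exact h4
    · intro c hc
      rw [Finset.mem_insert]
      exact h3 c hc
  have hRsub : R ⊆ insert m.1 (insert m'.1 (T0 F Cᶜ)) := by
    intro r hr
    rw [Finset.mem_insert, Finset.mem_insert]
    by_cases e1 : r = m.1
    · exact Or.inl e1
    · by_cases e2 : r = m'.1
      · exact Or.inr (Or.inl e2)
      · exact Or.inr (Or.inr (hT r hr e1 e2))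
  have hlo : d ≤ (T0 F Cᶜ).card + 2 := by
    have e1 := Finset.card_le_card hRsub
    have e2 := Finset.card_insert_le m.1 (insert m'.1 (T0 F Cᶜ))
    have e3 := Finset.card_insert_le m'.1 (T0 F Cᶜ)
    omega
  have hhi : (T0 F Cᶜ).card + 1 ≤ d := by
    obtain ⟨P, hP⟩ := hP
    have h3 : (T0 F Cᶜ).image P ⊆ Cᶜ := by
      intro c hc
      obtain ⟨r, hr, rfl⟩ := Finset.mem_image.1 hc
      rw [mem_T0] at hr
      rw [← hr]
      exact hP r
    have h4 := Finset.card_le_card h3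
    rw [Finset.card_image_of_injective _ P.injective] at h4
    omega
  refine ⟨Cᶜ, hQ, hlo, hhi, ?_, ?_⟩
  · obtain ⟨r, hr, hr2⟩ : ∃ r ∈ R, r ∉ T0 F Cᶜ := by
      apply Finset.exists_mem_notMem_of_card_lt_card
      omega
    by_cases e1 : r = m.1
    · exact Or.inl (hOm (e1 ▸ hr) (e1 ▸ hr2))
    · by_cases e2 : r = m'.1
      · exact Or.inr (hOm' (e2 ▸ hr) (e2 ▸ hr2))
      · exact absurd (hT r hr e1 e2) hr2
  · intro ht
    have key : ∀ a b : Fin (2 * d), R ⊆ insert a (insert b (T0 F Cᶜ)) → a ∈ R ∧ a ∉ T0 F Cᶜ := by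
      intro a b hs
      by_contra hn
      have h3 : R ⊆ insert b (T0 F Cᶜ) := by
        intro r hr
        have h4 := hs hr
        rw [Finset.mem_insert] at h4
        rcases h4 with h4 | h4
        · rw [Finset.mem_insert]
          right
          by_contra h5
          exact hn ⟨h4 ▸ hr, h4 ▸ h5⟩
        · exact h4
      have e1 := Finset.card_le_card h3
      have e3 := Finset.card_insert_le b (T0 F Cᶜ)
      omega
    have k1 := key _ _ hRsub
    have k2 := key m'.1 m.1 (by rw [Finset.insert_comm]; exact hRsub)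
    exact ⟨hOm k1.1 k1.2, hOm' k2.1 k2.2⟩

theorem pair_type {d : ℕ} (hd : 5 ≤ d) {F : Fin (2 * d) → Finset (Fin (2 * d))} (hF : Dg (d - 1) F)
    (hP : ∃ P : Equiv.Perm (Fin (2 * d)), ∀ r, P r ∈ F r) {m m' : Fin (2 * d) × Fin (2 * d)} (h1 : m.1 ≠ m'.1)
    (h2 : m.2 ≠ m'.2) (h : ∀ P : Equiv.Perm (Fin (2 * d)), (∀ r, P r ∈ F r) → P m.1 = m.2 ∨ P m'.1 = m'.2) :
    (∃ Q, RT F Q m m') ∨ ∃ Q, RT (tr F) Q m.swap m'.swap := by
  classical
  obtain ⟨R, C, hRC, hb⟩ := hall
    (fun i c : Fin (2 * d) => c ∉ F i ∨ (i = m.1 ∧ c = m.2) ∨ (i = m'.1 ∧ c = m'.2)) (by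
      rintro ⟨σ, hσ⟩
      have h3 : ∀ r, σ r ∈ F r := by
        intro r
        by_contra hn
        exact hσ r (Or.inl hn)
      rcases h σ h3 with h4 | h4
      · exact hσ m.1 (Or.inr (Or.inl ⟨rfl, h4⟩))
      · exact hσ m'.1 (Or.inr (Or.inr ⟨rfl, h4⟩)))
  rw [Fintype.card_fin] at hRC
  have hb1 : ∀ i ∈ R, ∀ c ∈ C, c ∈ F i → (i = m.1 ∧ c = m.2) ∨ (i = m'.1 ∧ c = m'.2) := by
    intro i hi c hc hci
    rcases hb i hi c hc with h3 | h3
    · exact absurd hci h3
    · exact h3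
  have hb2 : ∀ c ∈ C, ∀ i ∈ R, i ∈ tr F c → (c = m.swap.1 ∧ i = m.swap.2) ∨
      (c = m'.swap.1 ∧ i = m'.swap.2) := by
    intro c hc i hi hci
    rw [mem_tr] at hci
    rcases hb1 i hi c hc hci with h3 | h3
    · exact Or.inl ⟨h3.2, h3.1⟩
    · exact Or.inr ⟨h3.2, h3.1⟩
  have u1 := ub hd hF.row hRC h1 hb1
  have u2 := ub hd hF.col (by omega : C.card + R.card = 2 * d + 1) (show m.swap.1 ≠ m'.swap.1 from h2) hb2
  rcases (show R.card = d ∨ R.card = d + 1 by omega) with e | e
  · exact Or.inl (rowc hd hF.row hP e (by omega) h1 hb1)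
  · refine Or.inr (rowc hd hF.col ?_ (by omega : C.card = d) e (show m.swap.1 ≠ m'.swap.1 from h2) hb2)
    obtain ⟨P, hP⟩ := hP
    refine ⟨P⁻¹, fun c => ?_⟩
    rw [mem_tr]
    have := hP (P⁻¹ c)
    simpa using this

end Pool.Agent.MP_dc7d7b.TD
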